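import Pool.Agent.H435.CT.Top

/-!
# Groupless and arithmetically hyperbolic generic complete intersections

Let `K` be an algebraically closed field of characteristic `0`, let `k` be a field contained in `K`,
with algebraic closure `k'` in `K`, and let `F_a`, for `a` in a finite set `A`, be forms of degrees
`d_a > 0` in `n + 1` variables over `K` whose coefficients are, for all `a` together, algebraically
independent over `k`. Let `X` be the complete intersection `F_a = 0`, `a ∈ A`, in projective space of
dimension `n`. Its canonical bundle is `O(κ)`, `κ = ∑ d_a - n - 1`. Suppose that the dimension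
`δ = n - |A|` of `X` is at least two, and that `X` is not a surface with `κ = 0` (a `K3` surface).

(I) The following are equivalent:
(1) `AlgHyp F`: `X` is algebraically hyperbolic, that is, for some `B` the degree of every morphism
    from a smooth projective curve of genus `g` to `X` is at most `B max (2 g - 2, 0)`;
(2) `Bounded F`: for each curve these degrees are bounded;
(3) `GenusOne F`: every morphism from a curve of genus at most one to `X` is constant;
(4) `X` contains no lines;
(5) `2 n - 1 ≤ ∑ (d_a + 1)`, that is, `κ ≥ δ - 2`.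

(II) Suppose moreover that all `d_a` are at least `2`, that `X` is not a threefold with `κ = 1`, and
that `X` is not one of the fourfolds with `κ = 2` of multidegrees `(8)`, `(2, 7)`, `(3, 6)`,
`(2, 2, 6)`, `(2, 2, 2, 5)`. Then the following are equivalent to the conditions in (I):
(6) for every subring of `K` that is generated by a finite set `T`, only finitely many points of `X`
    have homogeneous coordinates in the ring that generate the unit ideal of the ring;
(7) `X` has only finitely many points over every field generated over `k'` by a finite set `T`.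

The curve is given by its function field `L`, the morphism by its homogeneous coordinates `f`; its
degree is `pht K f`, and `2 g - 2` is `canDeg K L`.

The conditions of the conjecture of Lang are in between. Grouplessness is implied by (2): a
nonconstant morphism from an abelian variety is nonconstant on some smooth projective curve that is
mapped to the abelian variety, and the multiplications by the natural numbers give morphisms of
unbounded degree from this curve; and it implies (3), since every curve of genus at most one is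
dominated by an elliptic curve. Arithmetic hyperbolicity is implied by (7), since the points over a
finitely generated ring are points over its field of fractions; and it implies (6), since for a ring
that contains the coefficients of the forms the points of (6) are points, over the ring, of the
closed subscheme of projective space given by the forms. Therefore, by (I), `X` is groupless if and
only if it contains no lines, and in (II), `X` is groupless if and only if it is arithmetically
hyperbolic.
-/

set_option autoImplicit false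

namespace Pool.Agent.Results.MP_c7af3c_ag.IntersectionsOfAllDimensions

open MvPolynomial FF Pool.Agent.W603.LV Pool.Agent.W603.PV LinearAlgebra.Projectivization

section defs

variable {K A : Type} [Field K] {n : ℕ}

/-- The vector `f` is the vector of homogeneous coordinates of a morphism to `F a = 0` (for all
`a`) from the smooth projective curve with function field `L`. -/
def IsMap (F : A → MvPolynomial (Fin (n + 1)) K) {L : Type} [Field L] [Algebra K L]
    (f : Fin (n + 1) → L) : Prop :=
  f ≠ 0 ∧ ∀ a, aeval f (F a) = 0

/-- The degrees of the morphisms from curves of genus `g` are at most `B max (2 g - 2, 0)`. -/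
def AlgHyp (F : A → MvPolynomial (Fin (n + 1)) K) : Prop :=
  ∃ B : ℕ, ∀ (L : Type) [Field L] [Algebra K L] [IsFF K L] (f : Fin (n + 1) → L),
    IsMap F f → pht K f ≤ B * max (canDeg K L) 0

/-- The degrees of the morphisms from each curve are bounded. -/
def Bounded (F : A → MvPolynomial (Fin (n + 1)) K) : Prop :=
  ∀ (L : Type) [Field L] [Algebra K L] [IsFF K L], ∃ B : ℤ, ∀ f : Fin (n + 1) → L,
    IsMap F f → pht K f ≤ B

/-- The morphisms from the curves of genus at most one are constant. -/
def GenusOne (F : A → MvPolynomial (Fin (n + 1)) K) : Prop :=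
  ∀ (L : Type) [Field L] [Algebra K L] [IsFF K L], canDeg K L ≤ 0 → ∀ f : Fin (n + 1) → L,
    IsMap F f → ∃ (c : L) (x : Fin (n + 1) → K), ∀ i, f i = c * algebraMap K L (x i)

/-- A line, given by a vector space of dimension two, that is contained in `F a = 0` for all `a`. -/
def IsLine (F : A → MvPolynomial (Fin (n + 1)) K) (W : Submodule K (Fin (n + 1) → K)) : Prop :=
  Module.finrank K W = 2 ∧ ∀ a, ∀ v ∈ W, eval v (F a) = 0

/-- The points of `F a = 0` with homogeneous coordinates in the ring generated by the set `T` which
generate the unit ideal of this ring. -/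
def RingPoints (F : A → MvPolynomial (Fin (n + 1)) K) (T : Finset K) :
    Set (ℙ K (Fin (n + 1) → K)) :=
  {p | ∃ x : Fin (n + 1) → K, (∀ a, eval x (F a) = 0) ∧
    (∀ i, x i ∈ Subring.closure (T : Set K)) ∧
    (∃ c : Fin (n + 1) → K, (∀ i, c i ∈ Subring.closure (T : Set K)) ∧ ∑ i, c i * x i = 1) ∧
    ∃ hx : x ≠ 0, p = Projectivization.mk K x hx}

/-- The points of `F a = 0` with coordinates in the field `E`. -/
def Points (F : A → MvPolynomial (Fin (n + 1)) K) (E : Subfield K) :
    Set (ℙ K (Fin (n + 1) → K)) :=
  {p | (∀ a, eval p.rep (F a) = 0) ∧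
    ∃ x : Fin (n + 1) → K, (∀ i, x i ∈ E) ∧ ∃ hx : x ≠ 0, p = Projectivization.mk K x hx}

end defs

/-- The numerical condition of H435.SC, for fourfolds with canonical bundle `O(2)`. -/
theorem planeNum_four {n : ℕ} {A : Type} [Fintype A] [DecidableEq A] {d : A → ℕ}
    (h2 : ∀ a, 2 ≤ d a) (hn : n = Fintype.card A + 4) (hd : ∑ a, d a = n + 3)
    (h4 : ∀ a, d a ≤ 4 ∨ (d a = 5 ∧ Fintype.card A ≤ 3)) : Pool.Agent.H435.SC.PlaneNum n d := by
  have hsum : ∑ a, (d a - 1) = 7 := by
    have h5 : ∑ a, (d a - 1) + ∑ _a : A, 1 = ∑ a, d a := by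
      rw [← Finset.sum_add_distrib]
      exact Finset.sum_congr rfl fun a _ => by have := h2 a; omega
    rw [Finset.sum_const, Finset.card_univ, smul_eq_mul, mul_one] at h5
    omega
  intro e he ⟨a0, ha0⟩
  left
  have h5 : d a0 ≤ 5 := by rcases h4 a0 with h | h <;> omega
  have he5 : e = 3 ∨ e = 4 ∨ e = 5 := by omega
  rcases he5 with rfl | rfl | rfl
  · have h6 : ∑ a, 2 * (d a - 1) ≤ ∑ a,
        (if 3 ≤ d a then (3 - 2) * (2 * d a - 3 + 1) else d a * (d a - 1)) := by
      refine Finset.sum_le_sum fun a _ => ?_
      have := h2 a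
      split_ifs
      · omega
      · exact Nat.mul_le_mul_right _ (h2 a)
    rw [← Finset.mul_sum, hsum] at h6
    omega
  · have h6 : ∑ a, 2 * (d a - 1) ≤ ∑ a,
        (if 4 ≤ d a then (4 - 2) * (2 * d a - 4 + 1) else d a * (d a - 1)) := by
      refine Finset.sum_le_sum fun a _ => ?_
      have := h2 a
      split_ifs
      · omega
      · exact Nat.mul_le_mul_right _ (h2 a)
    rw [← Finset.mul_sum, hsum] at h6
    omega
  · have h50 : d a0 = 5 := by omega
    have hcard : Fintype.card A ≤ 3 := by
      rcases h4 a0 with h | h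
      · omega
      · exact h.2
    have h6 := Finset.add_sum_erase Finset.univ
      (fun a => if 5 ≤ d a then (5 - 2) * (2 * d a - 5 + 1) else d a * (d a - 1))
      (Finset.mem_univ a0)
    have h7 := Finset.add_sum_erase Finset.univ (fun a => d a - 1) (Finset.mem_univ a0)
    rw [← h6, if_pos ha0, h50]
    rw [hsum, h50] at h7
    have h8 : ∑ a ∈ Finset.univ.erase a0, 4 * (d a - 1) ≤ ∑ a ∈ Finset.univ.erase a0,
        ((if 5 ≤ d a then (5 - 2) * (2 * d a - 5 + 1) else d a * (d a - 1)) + 2) := by
      refine Finset.sum_le_sum fun a _ => ?_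
      have := h2 a
      obtain ⟨m, hm⟩ : ∃ m, d a = m + 2 := ⟨d a - 2, by omega⟩
      have hm3 : m ≤ 3 := by rcases h4 a with h | h <;> omega
      rw [hm]
      interval_cases m <;> simp
    rw [← Finset.mul_sum, Finset.sum_add_distrib, Finset.sum_const,
      Finset.card_erase_of_mem (Finset.mem_univ a0), Finset.card_univ, smul_eq_mul] at h8
    omega

theorem result {k K : Type} [Field k] [Field K] [IsAlgClosed K] [CharZero K] [Algebra k K]
    {n : ℕ} {A : Type} [Fintype A] {d : A → ℕ} (hd0 : ∀ a, 0 < d a)
    -- the dimension is at least two; no `K3` surfaces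
    (hdim : Fintype.card A + 2 ≤ n) (hK3 : ¬ (n = Fintype.card A + 2 ∧ ∑ a, d a = n + 1))
    -- the forms; their coefficients are algebraically independent over `k`
    (F : A → MvPolynomial (Fin (n + 1)) K) (hF : ∀ a, (F a).IsHomogeneous (d a))
    (hgen : AlgebraicIndependent k
      fun p : (a : A) × {I : Fin (n + 1) →₀ ℕ // I.degree = d a} => (F p.1).coeff p.2.1) :
    -- (I)
    [AlgHyp F, Bounded F, GenusOne F, ∀ W, ¬ IsLine F W, 2 * n - 1 ≤ ∑ a, (d a + 1)].TFAE ∧
    -- (II)
    ((∀ a, 2 ≤ d a) → ¬ (n = Fintype.card A + 3 ∧ ∑ a, d a = n + 2) →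
      (n = Fintype.card A + 4 → ∑ a, d a = n + 3 →
        ∀ a, d a ≤ 4 ∨ (d a = 5 ∧ Fintype.card A ≤ 3)) →
      [AlgHyp F, Bounded F, GenusOne F, ∀ W, ¬ IsLine F W, 2 * n - 1 ≤ ∑ a, (d a + 1),
        ∀ T : Finset K, (RingPoints F T).Finite,
        ∀ T : Finset K, (Points F (IntermediateField.adjoin (algebraicClosure k K)
          (T : Set K)).toSubfield).Finite].TFAE) := by
  classical
  have hn : 1 ≤ n := by omega
  have hsum : ∑ a, (d a + 1) = ∑ a, d a + Fintype.card A := by
    rw [Finset.sum_add_distrib, Finset.sum_const, Finset.card_univ, smul_eq_mul, mul_one]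
  have h0 := Pool.Agent.H435.CT.tfae_all (k0 := k) hdim (fun h h' => hK3 ⟨h, h'⟩) hd0 hF hgen
  have hl : (∀ W, ¬ Pool.Agent.Y741.LineX F W) ↔ ∀ W, ¬ IsLine F W :=
    forall_congr' fun W => not_congr ⟨fun h => ⟨h.1, h.2⟩, fun h => ⟨h.1, h.2⟩⟩
  have h45 : (∀ W, ¬ IsLine F W) ↔ 2 * n - 1 ≤ ∑ a, (d a + 1) := hl.symm.trans (h0.out 5 6)
  have h51 : 2 * n - 1 ≤ ∑ a, (d a + 1) → AlgHyp F := by
    intro h
    have hR : 3 * n + 2 ≤ 2 * ∑ a, d a + Fintype.card A ∨
        (n = Fintype.card A + 3 ∧ ∑ a, d a = n + 2) := by
      rcases Nat.lt_or_ge n (Fintype.card A + 3) with h1 | h1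
      · omega
      · omega
    obtain ⟨B, hB⟩ := Pool.Agent.H435.CT.deg_all' (k0 := k) hd0 hF hgen hR (by omega) hn
    exact ⟨B, fun L _ _ _ f hf => hB L f hf⟩
  have h12 : AlgHyp F → Bounded F := Pool.Agent.Y735.EL.bdd_of_algHyp
  have h23 : Bounded F → GenusOne F := Pool.Agent.Y735.EL.genusOne_of_bdd
  have h34 : GenusOne F → ∀ W, ¬ IsLine F W := fun h W hW =>
    Pool.Agent.Y735.EL.no_line_of_genusOne h W hW.1 hW.2
  refine ⟨?_, fun hd2 h3 h4 => ?_⟩
  · tfae_have 4 ↔ 5 := h45
    tfae_have 5 → 1 := h51
    tfae_have 1 → 2 := h12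
    tfae_have 2 → 3 := h23
    tfae_have 3 → 4 := h34
    tfae_finish
  · tfae_have 4 ↔ 5 := h45
    tfae_have 5 → 1 := h51
    tfae_have 1 → 2 := h12
    tfae_have 2 → 3 := h23
    tfae_have 3 → 4 := h34
    tfae_have 5 → 7 := by
      intro h T
      have hd3 : 3 * n + 2 ≤ 2 * ∑ a, d a + Fintype.card A := by
        rcases Nat.lt_or_ge n (Fintype.card A + 3) with h1 | h1
        · omega
        · omega
      have h5 := Pool.Agent.H435.SC.pts_all (k := k) (by omega) hd0 hd3 (by
        rcases Nat.lt_or_ge n (Fintype.card A + 3) with h1 | h1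
        · exact Or.inr (Or.inl ⟨by omega, hd2⟩)
        · by_cases h5 : 3 * n + 3 ≤ 2 * ∑ a, d a + Fintype.card A
          · exact Or.inl h5
          · have h6 : n = Fintype.card A + 4 := by omega
            have h7 : ∑ a, d a = n + 3 := by omega
            exact Or.inr (Or.inr (planeNum_four hd2 h6 h7 (h4 h6 h7)))) F hF hgen T
      exact h5.subset fun p hp => ⟨hp, fun ⟨W, hW, _⟩ => h45.2 h W ⟨hW.1, hW.2⟩⟩
    tfae_have 7 → 6 := by
      intro h T
      refine (h T).subset ?_
      rintro p ⟨x, hxF, hxT, -, hx0, rfl⟩
      obtain ⟨u, hu⟩ := Projectivization.exists_smul_eq_mk_rep K x hx0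
      refine ⟨fun a => ?_, x, fun i => ?_, hx0, rfl⟩
      · rw [← hu]
        have hu' : u • x = (u : K) • x := rfl
        rw [hu', Pool.Agent.TH145.GH.eval_smul_hom (hF a), hxF a, mul_zero]
      · have h7 : Subring.closure (T : Set K) ≤ (IntermediateField.adjoin (algebraicClosure k K)
            (T : Set K)).toSubfield.toSubring :=
          Subring.closure_le.2 (IntermediateField.subset_adjoin _ _)
        exact h7 (hxT i)
    tfae_have 6 → 4 := by
      intro h W hW
      obtain ⟨T, hT⟩ := Pool.Agent.Y735.EL.ring_infinite hW.1 hW.2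
      exact hT (h T)
    tfae_finish

end Pool.Agent.Results.MP_c7af3c_ag.IntersectionsOfAllDimensions
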