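import Pool.Agent.H441.FT.Kemb

/-!
# Groupless and arithmetically hyperbolic varieties: systems of parallelograms suffice

MP_c7af3c_ag, Q1, for `k` the field of algebraic numbers. A projective variety over `k` is defined over a
number field `K`; it is groupless if and only if all holomorphic maps from complex tori to
`X_σ = X ⊗_σ ℂ` are constant for one (equivalently, for every) embedding `σ` of `K` in `ℂ`, and it is
arithmetically hyperbolic if and only if `X(L)` is finite for all number fields `L` over `K`.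

The diagonals `y_p, y_q` and the sides `y_s, y_t` of a parallelogram satisfy the parallelogram law
`y_p ^ 2 + y_q ^ 2 = 2 y_s ^ 2 + 2 y_t ^ 2`. We consider the projective varieties `Y_R` over `ℚ` which are
intersections of quadrics of this form,

`Y_R : y_p ^ 2 + y_q ^ 2 = 2 y_s ^ 2 + 2 y_t ^ 2`, `(p, q, s, t) ∈ R`,

for a finite list `R` of quadruples of indices. They are given by the combinatorial data `R` alone.

**Theorem 1.** Let `K` be a number field and `X` any projective variety over `K` in `P^n` (any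
dimension, any singularities). There are a list `R` and forms `φ_0, …, φ_N` of the same degree
over `K`, among them all monomials of this degree, so that `φ : P^n → P^N` is a closed embedding, such
that `X_τ = (φ^τ)⁻¹(Y_R)` for all embeddings `τ` of `K` in any field, and every nonconstant holomorphic
map from a complex torus to `Y_R` (more generally from `ℂ^g`, with any group of periods) is of the form
`(± φ_0^τ(x) : … : ± φ_N^τ(x))`, where `τ` is an embedding of `K` in `ℂ` and `x` is a holomorphic map from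
this torus to `X_τ`. In particular `Y_R` is groupless if and only if `X` is groupless.

**Theorem 2.** The implication groupless `⟹` arithmetically hyperbolic holds for all projective
varieties over the field of algebraic numbers if and only if it holds for all the varieties `Y_R`
over `ℚ`. (The converse implication is known, by the potential density of the rational points on
abelian varieties.)

**Theorem 3.** The same for the equivalence in its form with exceptional sets: for all number fields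
`K`, all projective varieties `X` over `K` and all closed subsets `Z`, the images of all nonconstant
maps from tori to all `X_σ` lie in `Z_σ` if and only if `(X ∖ Z)(L)` is finite for all `L`; this holds if
and only if it holds for all `Y_R` and all coordinate subspaces `Z = {y_j = 0, j ∈ J}`.

Proof. See `Pool/Agent/H441/FT`, in particular `Maps` and `Mapk`. First `X` is replaced by the union of
its conjugates `{(x : α x) : x ∈ X_τ}`, where `K = ℚ(α)`; it is a variety over `ℚ`. The coordinates of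
`P^N` are indexed by all integral vectors `u` in a large box, `φ_u(x) = ⟨u, v(x)⟩` with the Veronese
embedding `v`. The parallelogram laws for all `u, v`, `u + v`, `u - v` in the box express that the squares
`y_u ^ 2` are the values of a quadratic form; the equation `g(p) + g(q) = g(s) + g(t)` is equivalent to
`g(p + q) + g(p - q) = 2 g(s) + 2 g(t)`, so also the equations of the Veronese variety and of the
variety in it are of this form. On the lines in `ℂ^g` a theorem of Büchi type for meromorphic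
functions (library) shows that the quadratic form is a square, so every point of the image is in one
of the copies of `X`, and by the identity theorem the copy and the signs do not change.
-/

set_option autoImplicit false

namespace Pool.Agent.Results.MP_c7af3c_ag.ParallelogramsSuffice

open MvPolynomial
open scoped LinearAlgebra.Projectivization

section

variable {K : Type} [Field K] {ι γ : Type} {n : ℕ}

/-- all holomorphic maps from complex tori to `V(F)_σ` are constant; the maps are given by vectors of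
homogeneous coordinates without common zeros on `ℂ^g` -/
def Groupless (σ : K →+* ℂ) (F : ι → MvPolynomial (Fin (n + 1)) K) : Prop :=
  ∀ (g : ℕ) (L : AddSubgroup (Fin g → ℂ)), DiscreteTopology L →
    Submodule.span ℝ (L : Set (Fin g → ℂ)) = ⊤ →
    ∀ f : (Fin g → ℂ) → Fin (n + 1) → ℂ, Differentiable ℂ f → (∀ z, f z ≠ 0) →
      (∀ z i, eval₂ σ (f z) (F i) = 0) → (∀ z, ∀ l ∈ L, ∃ b : ℂ, f (z + l) = b • f z) →
      ∀ z w, ∃ b : ℂ, f w = b • f z

/-- `V(F)(L)` is finite for all finite extensions `L` of `K` -/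
def ArithmeticallyHyperbolic (F : ι → MvPolynomial (Fin (n + 1)) K) : Prop :=
  ∀ (L : Type) [Field L] [NumberField L] [Algebra K L],
    {P : ℙ L (Fin (n + 1) → L) | ∀ i, eval₂ (algebraMap K L) P.rep (F i) = 0}.Finite

/-- the images of all nonconstant holomorphic maps from complex tori to `V(F)_σ` lie in `V(G)` -/
def ToriIn (σ : K →+* ℂ) (F : ι → MvPolynomial (Fin (n + 1)) K)
    (G : γ → MvPolynomial (Fin (n + 1)) K) : Prop :=
  ∀ (g : ℕ) (L : AddSubgroup (Fin g → ℂ)), DiscreteTopology L →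
    Submodule.span ℝ (L : Set (Fin g → ℂ)) = ⊤ →
    ∀ f : (Fin g → ℂ) → Fin (n + 1) → ℂ, Differentiable ℂ f → (∀ z, f z ≠ 0) →
      (∀ z i, eval₂ σ (f z) (F i) = 0) → (∀ z, ∀ l ∈ L, ∃ b : ℂ, f (z + l) = b • f z) →
      (∃ z w, ∀ b : ℂ, f w ≠ b • f z) → ∀ z j, eval₂ σ (f z) (G j) = 0

/-- `(V(F) ∖ V(G))(L)` is finite for all finite extensions `L` of `K` -/
def PointsIn (F : ι → MvPolynomial (Fin (n + 1)) K) (G : γ → MvPolynomial (Fin (n + 1)) K) :
    Prop :=
  ∀ (L : Type) [Field L] [NumberField L] [Algebra K L],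
    {P : ℙ L (Fin (n + 1) → L) | (∀ i, eval₂ (algebraMap K L) P.rep (F i) = 0) ∧
      ¬ ∀ l, eval₂ (algebraMap K L) P.rep (G l) = 0}.Finite

end

/-- the equations `y_p ^ 2 + y_q ^ 2 = 2 y_s ^ 2 + 2 y_t ^ 2`, `(p, q, s, t) = R i`, `i < k` -/
noncomputable def parallelograms {N k : ℕ} (R : Fin k → Fin 4 → Fin (N + 1)) :
    Fin k → MvPolynomial (Fin (N + 1)) ℚ :=
  fun i => X (R i 0) ^ 2 + X (R i 1) ^ 2 - 2 * (X (R i 2) ^ 2 + X (R i 3) ^ 2)

/-- the equations `y_j = 0`, `j ∈ J` -/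
noncomputable def coords {N : ℕ} (J : Set (Fin (N + 1))) : J → MvPolynomial (Fin (N + 1)) ℚ :=
  fun j => X (j : Fin (N + 1))

section proof

open Pool.Agent.H441.FT (AllIn exists_parM onlyK mapsK mapsK')

variable {K : Type} [Field K] {ι γ : Type} {n : ℕ}

/-- the complex tori -/
abbrev Tori : Type := Σ g : ℕ, {L : AddSubgroup (Fin g → ℂ) //
  DiscreteTopology L ∧ Submodule.span ℝ (L : Set (Fin g → ℂ)) = ⊤}

theorem tori_iff {σ : K →+* ℂ} {F : ι → MvPolynomial (Fin (n + 1)) K}
    {G : γ → MvPolynomial (Fin (n + 1)) K} :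
    ToriIn σ F G ↔ AllIn (A := Tori) (fun a => Fin a.1 → ℂ) (fun a => (a.2.1 : Set _)) σ F G := by
  constructor
  · rintro h ⟨g, L, h1, h2⟩
    exact h g L h1 h2
  · intro h g L h1 h2
    exact h ⟨g, L, h1, h2⟩

theorem hyp_iff {σ : K →+* ℂ} {F : ι → MvPolynomial (Fin (n + 1)) K} :
    Groupless σ F ↔ AllIn (A := Tori) (fun a => Fin a.1 → ℂ) (fun a => (a.2.1 : Set _)) σ F
      (fun _ : Unit => (1 : MvPolynomial (Fin (n + 1)) K)) := by
  rw [← tori_iff]
  constructor
  · rintro h g L h1 h2 f hf hf0 hfF hper ⟨z, w, hnc⟩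
    obtain ⟨c, hc⟩ := h g L h1 h2 f hf hf0 hfF hper z w
    exact absurd hc (hnc c)
  · intro h g L h1 h2 f hf hf0 hfF hper z w
    by_contra hcon
    push Not at hcon
    have := h g L h1 h2 f hf hf0 hfF hper ⟨z, w, hcon⟩ z ()
    simp at this

theorem fin_iff {F : ι → MvPolynomial (Fin (n + 1)) K} :
    ArithmeticallyHyperbolic F ↔ Pool.Agent.H441.FT.PointsIn F
      (fun _ : Unit => (1 : MvPolynomial (Fin (n + 1)) K)) := by
  constructor
  · intro h L _ _ _
    exact (h L).subset fun P hP => hP.1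
  · intro h L _ _ _
    refine (h L).subset fun P hP => ⟨hP, fun hcon => ?_⟩
    have := hcon ()
    simp at this

theorem part_one (K : Type) [Field K] [NumberField K] (n : ℕ) (ι : Type) [Finite ι]
    (F : ι → MvPolynomial (Fin (n + 1)) K) (hF : ∀ i, ∃ e, (F i).IsHomogeneous e) :
    ∃ (N k : ℕ) (R : Fin k → Fin 4 → Fin (N + 1)) (e : ℕ)
      (φ : Fin (N + 1) → MvPolynomial (Fin (n + 1)) K), 1 ≤ e ∧ (∀ j, (φ j).IsHomogeneous e) ∧
      (∀ α : Fin (n + 1) → ℕ, ∑ i, α i = e → ∃ j, φ j = ∏ i, X i ^ α i) ∧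
      (∀ (Ω : Type) [Field Ω] (τ : K →+* Ω) (x : Fin (n + 1) → Ω), x ≠ 0 →
        ((∀ i, eval₂ τ x (F i) = 0) ↔ ∀ i, eval₂ (τ.comp (algebraMap ℚ K))
          (fun j => eval₂ τ x (φ j)) (parallelograms R i) = 0)) ∧
      (∀ (g : ℕ) (L : AddSubgroup (Fin g → ℂ)) (f : (Fin g → ℂ) → Fin (N + 1) → ℂ),
        Differentiable ℂ f → (∀ z, f z ≠ 0) → (∀ z i, aeval (f z) (parallelograms R i) = 0) →
        (∀ z, ∀ l ∈ L, ∃ b : ℂ, f (z + l) = b • f z) → (∃ z w, ∀ b : ℂ, f w ≠ b • f z) →
        ∃ (τ : K →+* ℂ) (ε : Fin (N + 1) → ℂ) (x : (Fin g → ℂ) → Fin (n + 1) → ℂ),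
          (∀ j, ε j = 1 ∨ ε j = -1) ∧ Differentiable ℂ x ∧ (∀ z, x z ≠ 0) ∧
          (∀ z i, eval₂ τ (x z) (F i) = 0) ∧ (∀ z, ∀ l ∈ L, ∃ b : ℂ, x (z + l) = b • x z) ∧
          ∀ z j, f z j = ε j * eval₂ τ (x z) (φ j)) ∧
      (Groupless (algebraMap ℚ ℂ) (parallelograms R) ↔ ∀ τ : K →+* ℂ, Groupless τ F) := by
  obtain ⟨N, k, R, e, φ, he, hφ, hmono, hne, hinj, hpts, -, hmaps, -⟩ := exists_parM F hF
  have hsq : ∀ a : ℂ, a ^ 2 = 1 → a = 1 ∨ a = -1 := by
    intro a ha
    have h1 : (a - 1) * (a + 1) = 0 := by linear_combination ha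
    rcases mul_eq_zero.1 h1 with h | h
    · exact Or.inl (sub_eq_zero.1 h)
    · exact Or.inr (eq_neg_of_add_eq_zero_left h)
  have hm : ∀ (g : ℕ) (L : AddSubgroup (Fin g → ℂ)) (f : (Fin g → ℂ) → Fin (N + 1) → ℂ),
        Differentiable ℂ f → (∀ z, f z ≠ 0) → (∀ z i, aeval (f z) (parallelograms R i) = 0) →
        (∀ z, ∀ l ∈ L, ∃ b : ℂ, f (z + l) = b • f z) → (∃ z w, ∀ b : ℂ, f w ≠ b • f z) →
        ∃ (τ : K →+* ℂ) (ε : Fin (N + 1) → ℂ) (x : (Fin g → ℂ) → Fin (n + 1) → ℂ),
          (∀ j, ε j = 1 ∨ ε j = -1) ∧ Differentiable ℂ x ∧ (∀ z, x z ≠ 0) ∧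
          (∀ z i, eval₂ τ (x z) (F i) = 0) ∧ (∀ z, ∀ l ∈ L, ∃ b : ℂ, x (z + l) = b • x z) ∧
          ∀ z j, f z j = ε j * eval₂ τ (x z) (φ j) := by
    intro g L f hf hf0 hfY hper hnc
    obtain ⟨τ, ε, x, hε, hxd, hx0, hxF, hfx⟩ := hmaps (Fin g → ℂ) f hf hf0 hfY hnc
    have hε0 : ∀ j, ε j ≠ 0 := by
      intro j h0
      have := hε j
      rw [h0, zero_pow two_ne_zero] at this
      exact zero_ne_one this
    refine ⟨τ, ε, x, fun j => hsq _ (hε j), hxd, hx0, hxF, fun z l hl => ?_, hfx⟩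
    obtain ⟨b, hb⟩ := hper z l hl
    refine hinj ℂ τ _ _ b (hx0 _) (funext fun j => ?_)
    have h2 := congrFun hb j
    rw [Pi.smul_apply, smul_eq_mul, hfx, hfx] at h2
    rw [Pi.smul_apply, smul_eq_mul]
    apply mul_left_cancel₀ (hε0 j)
    linear_combination h2
  refine ⟨N, k, R, e, φ, he, hφ, hmono, fun Ω _ τ x hx => hpts Ω τ x hx, hm, ?_⟩
  have hscale : ∀ (τ : K →+* ℂ) (b : ℂ) (x : Fin (n + 1) → ℂ),
      Pool.Agent.H441.UA.vals τ φ (b • x) = b ^ e • Pool.Agent.H441.UA.vals τ φ x := by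
    intro τ b x
    funext j
    exact Pool.Agent.N254.SQ.eval₂_scale τ (hφ j) b x
  constructor
  · intro h τ g L h1 h2 f hf hf0 hfF hper z w
    obtain ⟨b, hb⟩ := h g L h1 h2 (fun z => Pool.Agent.H441.UA.vals τ φ (f z))
      (Pool.Agent.H441.FT.vals_diff' τ φ hf) (fun z => hne ℂ τ _ (hf0 z)) (fun z i => by
        have h3 := (hpts ℂ τ (f z) (hf0 z)).1 (hfF z) i
        have h9 : τ.comp (algebraMap ℚ K) = algebraMap ℚ ℂ := Subsingleton.elim _ _
        rw [h9] at h3
        exact h3) (fun z l hl => by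
        obtain ⟨b, hb⟩ := hper z l hl
        exact ⟨b ^ e, by rw [hb, hscale]⟩) z w
    exact hinj ℂ τ _ _ b (hf0 w) hb
  · intro h g L h1 h2 f hf hf0 hfY hper z w
    by_contra hcon
    push Not at hcon
    obtain ⟨τ, ε, x, hε, hxd, hx0, hxF, hxper, hfx⟩ := hm g L f hf hf0
      (fun z i => hfY z i) hper ⟨z, w, hcon⟩
    obtain ⟨b, hb⟩ := h τ g L h1 h2 x hxd hx0 hxF hxper z w
    apply hcon (b ^ e)
    have h3 := hscale τ b (x z)
    rw [← hb] at h3
    funext j
    have h4 := congrFun h3 j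
    rw [Pi.smul_apply, smul_eq_mul] at h4 ⊢
    rw [hfx, hfx]
    change ε j * Pool.Agent.H441.UA.vals τ φ (x w) j = _
    rw [h4]
    change _ = b ^ e * (ε j * Pool.Agent.H441.UA.vals τ φ (x z) j)
    ring

end proof

theorem result :
    -- Theorem 1
    (∀ (K : Type) [Field K] [NumberField K] (n : ℕ) (ι : Type) [Finite ι]
      (F : ι → MvPolynomial (Fin (n + 1)) K), (∀ i, ∃ e, (F i).IsHomogeneous e) →
      ∃ (N k : ℕ) (R : Fin k → Fin 4 → Fin (N + 1)) (e : ℕ)
        (φ : Fin (N + 1) → MvPolynomial (Fin (n + 1)) K), 1 ≤ e ∧ (∀ j, (φ j).IsHomogeneous e) ∧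
        (∀ α : Fin (n + 1) → ℕ, ∑ i, α i = e → ∃ j, φ j = ∏ i, X i ^ α i) ∧
        -- `X_τ` is the inverse image of `Y_R`
        (∀ (Ω : Type) [Field Ω] (τ : K →+* Ω) (x : Fin (n + 1) → Ω), x ≠ 0 →
          ((∀ i, eval₂ τ x (F i) = 0) ↔ ∀ i, eval₂ (τ.comp (algebraMap ℚ K))
            (fun j => eval₂ τ x (φ j)) (parallelograms R i) = 0)) ∧
        -- holomorphic maps from tori to `Y_R`
        (∀ (g : ℕ) (L : AddSubgroup (Fin g → ℂ)) (f : (Fin g → ℂ) → Fin (N + 1) → ℂ),
          Differentiable ℂ f → (∀ z, f z ≠ 0) → (∀ z i, aeval (f z) (parallelograms R i) = 0) →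
          (∀ z, ∀ l ∈ L, ∃ b : ℂ, f (z + l) = b • f z) → (∃ z w, ∀ b : ℂ, f w ≠ b • f z) →
          ∃ (τ : K →+* ℂ) (ε : Fin (N + 1) → ℂ) (x : (Fin g → ℂ) → Fin (n + 1) → ℂ),
            (∀ j, ε j = 1 ∨ ε j = -1) ∧ Differentiable ℂ x ∧ (∀ z, x z ≠ 0) ∧
            (∀ z i, eval₂ τ (x z) (F i) = 0) ∧ (∀ z, ∀ l ∈ L, ∃ b : ℂ, x (z + l) = b • x z) ∧
            ∀ z j, f z j = ε j * eval₂ τ (x z) (φ j)) ∧
        (Groupless (algebraMap ℚ ℂ) (parallelograms R) ↔ ∀ τ : K →+* ℂ, Groupless τ F)) ∧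
    -- Theorem 2
    ((∀ (K : Type) [Field K] [NumberField K] (n : ℕ) (ι : Type) [Finite ι]
        (F : ι → MvPolynomial (Fin (n + 1)) K), (∀ i, ∃ e, (F i).IsHomogeneous e) →
        (∀ σ : K →+* ℂ, Groupless σ F) → ArithmeticallyHyperbolic F) ↔
      ∀ (N k : ℕ) (R : Fin k → Fin 4 → Fin (N + 1)),
        Groupless (algebraMap ℚ ℂ) (parallelograms R) →
          ArithmeticallyHyperbolic (parallelograms R)) ∧
    -- Theorem 3
    ((∀ (K : Type) [Field K] [NumberField K] (n : ℕ) (ι γ : Type) [Finite ι] [Finite γ]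
        (F : ι → MvPolynomial (Fin (n + 1)) K) (G : γ → MvPolynomial (Fin (n + 1)) K),
        (∀ i, ∃ e, (F i).IsHomogeneous e) → (∀ i, ∃ e, (G i).IsHomogeneous e) →
        ((∀ σ : K →+* ℂ, ToriIn σ F G) ↔ PointsIn F G)) ↔
      ∀ (N k : ℕ) (R : Fin k → Fin 4 → Fin (N + 1)) (J : Set (Fin (N + 1))),
        ToriIn (algebraMap ℚ ℂ) (parallelograms R) (coords J) ↔
          PointsIn (parallelograms R) (coords J)) := by
  have hpar : ∀ {N k : ℕ} (R : Fin k → Fin 4 → Fin (N + 1)) (i : Fin k),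
      (parallelograms R i).IsHomogeneous 2 := by
    intro N k R i
    have h1 := fun j : Fin (N + 1) => (isHomogeneous_X ℚ j).pow 2
    have h2 := ((isHomogeneous_C (Fin (N + 1)) (2 : ℚ)).mul ((h1 (R i 2)).add (h1 (R i 3))))
    exact ((h1 (R i 0)).add (h1 (R i 1))).sub h2
  refine ⟨fun K _ _ n ι _ F hF => part_one K n ι F hF, ⟨?_, ?_⟩, ⟨?_, ?_⟩⟩
  · intro h N k R hyp
    refine h ℚ N (Fin k) (parallelograms R) (fun i => ⟨2, hpar R i⟩) fun σ => ?_
    have : σ = algebraMap ℚ ℂ := Subsingleton.elim _ _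
    rw [this]
    exact hyp
  · intro h K _ _ n ι _ F hF hyp
    rw [fin_iff]
    exact Pool.Agent.H441.FT.onlyK (fun N k R h1 => fin_iff.1 (h N k R (hyp_iff.2 h1))) F hF
      fun σ => hyp_iff.1 (hyp σ)
  · intro h N k R J
    have h1 := h ℚ N (Fin k) J (parallelograms R) (coords J) (fun i => ⟨2, hpar R i⟩)
      (fun j => ⟨1, isHomogeneous_X _ _⟩)
    rw [← h1]
    constructor
    · intro h2 σ
      have : σ = algebraMap ℚ ℂ := Subsingleton.elim _ _
      rw [this]
      exact h2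
    · exact fun h2 => h2 _
  · intro h K _ _ n ι γ _ _ F G hF hG
    exact ⟨fun h1 => Pool.Agent.H441.FT.mapsK (fun N k R J h2 => (h N k R J).1 (tori_iff.2 h2)) F G hF hG
        fun σ => tori_iff.1 (h1 σ),
      fun h1 σ => tori_iff.2 (Pool.Agent.H441.FT.mapsK' (fun N k R J => tori_iff.symm.trans (h N k R J)) F G hF hG
        h1 σ)⟩

end Pool.Agent.Results.MP_c7af3c_ag.ParallelogramsSuffice
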