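import Pool.Agent.H911.KE.Fge
import Pool.Graph.R_pool_sql_team_seeded_63374d34.N254.SQ.LocDefs4

/-!
# Groupless implies arithmetically hyperbolic: dimension `m` follows from smooth hypersurfaces of dimension
# `2 m` of a special kind

Over `k = ℂ`. A projective variety is groupless if and only if all holomorphic maps from complex tori to it are
constant, and arithmetically hyperbolic if and only if it has only finitely many points over every finitely
generated field. Q1 is the equivalence of the two properties; the open direction is that groupless varieties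
are arithmetically hyperbolic. The form of Q1 with exceptional sets (`RelativeQ1`): for all forms `G`, all
nonconstant images of complex tori in `X` are in `G = 0` if and only if `X` has only finitely many points
outside of `G = 0` over every finitely generated field (for `G = 1` it is Q1). Holomorphic maps from
`ℂ^g / L`, for a lattice `L`, to a closed subset of a projective space are given by vectors of entire functions
on `ℂ^g` without common zeros.

**(0) Models.** For every `N` there are bounds `D₁(e)` with the following property. Let `X` be a connected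
projective manifold of dimension `w`, `2 w + 1 ≤ N`, in `P^n` (any `n`). There are linear forms `A_0, …, A_N`
on `P^n` which embed `X` as a submanifold `X'` of `P^N`, such that for some `e` and all `D ≥ D₁(e)` there is
a smooth hypersurface

`Y : ∑ t, Q_t(y) (y_0 + t y_1 + ⋯ + t^N y_N)^D = 0`, `t < N (2 N + 1)`, `Q_t` forms of degree `e`,

in `P^N` which contains `X'` and is hyperbolic outside of `X'` (`HyperbolicOutside`: the nonconstant entire
curves in `Y` and the closed subvarieties of `Y` of positive dimension not of general type are in `X'`, and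
the holomorphic maps from the punctured disc to `Y` which do not extend). For all smooth hypersurfaces `Y`
in `P^N` which are hyperbolic outside of `X'`, every nonconstant holomorphic map from a complex torus to `Y`
is the composition of `A` with such a map to `X`; so `Y` is groupless if and only if `X` is groupless. If `Y`
is arithmetically hyperbolic, then so is `X`; and if Q1 in the form with exceptional sets is true for `Y`,
then it is true for `X`. The same is true for closed subsets `X` with singularities such that for all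
irreducible closed subsets of `X` with generic point `x` the sum of the dimensions of `x` and of the tangent
space of `X` at `x` is at most `N - 1` (`Sm S d`, `d + 1 ≤ N`).

**(0′) Closed subsets of the hypersurfaces.** Let `Y` be a hypersurface in `P^N` which is hyperbolic outside of
a closed subset `X'`. A closed subset `V` of `Y` is groupless if and only if `V ∩ X'` is groupless, and the
closure of the union of all nonconstant images of complex tori in `V` is that of `V ∩ X'`. If `V ∩ X'` is
empty, then `V` is groupless.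

**(1) The reduction.** Let `C` be the class of connected projective manifolds of dimension at most `m`,
`2 m + 1 ≤ N`, or the class of closed subsets with singularities as above. For every choice of one exponent
`δ(e) ≥ D₁(e)` for each `e`:
(a) if groupless implies arithmetically hyperbolic for the smooth hypersurfaces
`∑ t, Q_t(y) (y_0 + t y_1 + ⋯ + t^N y_N)^D = 0` in `P^N`, `D = δ(e)` (for each degree `e` of the forms `Q_t` only
one linear system of hypersurfaces), which are hyperbolic outside of a closed subset in `C`, then it does so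
for all `X` in `C`;
(b) the same for Q1 in the form with exceptional sets.

So the open direction of Q1 for projective manifolds of dimension at most `m` follows from the one for those
smooth hypersurfaces in `P^(2 m + 1)` which are hyperbolic outside of a submanifold of dimension at most `m`:
for surfaces fourfolds in `P^5`. (For all `m` together it is equivalent to it.)

Proof. A general linear projection embeds `X`; the hypersurface is general among those in the ideal of
`X'` of this form. By the library modules `N254.SQ` (vanishing subsums, Nevanlinna theory and Wronskians)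
all nonconstant entire curves in `Y` are in `X'`. If `F : ℂ^g → Y` is not constant, then every point of its
image is on an entire curve, so the image of `F` is in `X'`, and it can be lifted to `X` by the local
inverses of `A`, which are given by forms. For (1b) the forms on `P^n` are compared with sets of forms on
`P^N` by the homeomorphism `X → X'`. If `X` has only finitely many points outside of `G = 0`, then so has `X'`;
and by (1b) for `Y` and the forms which vanish on `X'` there are only finitely many points of `Y` outside of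
`X'`, because all images of tori are in `X'`. The points of `X'` over a finitely generated field are the images
of points of `X` over one larger finitely generated field, as finitely many local inverses suffice.
-/

set_option autoImplicit false

namespace Pool.Agent.Results.MP_c7af3c_ag.TwiceTheDimension

open MvPolynomial
open Pool.Agent.N254.SQ (IsForm powerForm OnTori FiniteOffFg)
open Pool.Agent.H911.EM
open Pool.Agent.H911.KE (Manifold Manifolds)

/-- groupless: all holomorphic maps from complex tori to `V(S)` are constant -/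
def Groupless {n : ℕ} (S : Set (MvPolynomial (Fin (n + 1)) ℂ)) : Prop := NoTori S

/-- arithmetically hyperbolic: `V(S)` has only finitely many points over every finitely generated field -/
def ArithmeticallyHyperbolic {n : ℕ} (S : Set (MvPolynomial (Fin (n + 1)) ℂ)) : Prop :=
  FiniteOffFg S 1

/-- Q1 in the form with exceptional sets: `G` vanishes on all nonconstant images of complex tori in `V(S)` if
and only if over every finitely generated field there are only finitely many points of `V(S)` outside of
`G = 0` -/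
def RelativeQ1 {n : ℕ} (S : Set (MvPolynomial (Fin (n + 1)) ℂ)) : Prop :=
  ∀ G, IsForm G → (OnTori S G ↔ FiniteOffFg S G)

/-- the hypersurface `B = 0` and the closed set `X = V(S)`, which is mapped to it by the linear forms `A`:
the nonconstant holomorphic maps from complex tori to `B = 0` come from such maps to `X`; `B = 0` is groupless
if and only if `X` is, the closures of the images of tori agree; if `B = 0` is arithmetically hyperbolic,
then so is `X`, and the same with exceptional sets; Q1 in the form with exceptional sets is true for `X` if it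
is true for `B = 0` -/
def Compare {n N : ℕ} (S : Set (MvPolynomial (Fin (n + 1)) ℂ))
    (A : Fin (N + 1) → MvPolynomial (Fin (n + 1)) ℂ) (B : MvPolynomial (Fin (N + 1)) ℂ) : Prop :=
  (∀ (g : ℕ) (L : AddSubgroup (Fin g → ℂ)), DiscreteTopology L →
    Submodule.span ℝ (L : Set (Fin g → ℂ)) = ⊤ →
    ∀ F : (Fin g → ℂ) → Fin (N + 1) → ℂ, Differentiable ℂ F → (∀ z, F z ≠ 0) →
      (∀ z, eval (F z) B = 0) →
      (∀ z, ∀ l ∈ L, ∃ c : ℂ, F (z + l) = c • F z) → (¬ ∀ z w, ∃ c : ℂ, F w = c • F z) →
      ∃ f : (Fin g → ℂ) → Fin (n + 1) → ℂ, Differentiable ℂ f ∧ (∀ z, f z ≠ 0) ∧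
        (∀ z, ∀ p ∈ S, eval (f z) p = 0) ∧ (∀ z, at' A (f z) = F z) ∧
        (∀ z, ∀ l ∈ L, ∃ c : ℂ, f (z + l) = c • f z) ∧ ¬ ∀ z w, ∃ c : ℂ, f w = c • f z) ∧
  (Groupless {B} ↔ Groupless S) ∧ (ArithmeticallyHyperbolic {B} → ArithmeticallyHyperbolic S) ∧
  (∀ G : MvPolynomial (Fin (N + 1)) ℂ, IsForm G → (OnTori {B} G ↔ OnTori S (bind₁ A G)) ∧
    (FiniteOffFg {B} G → FiniteOffFg S (bind₁ A G))) ∧
  (RelativeQ1 {B} → RelativeQ1 S)

/-- The statement `W` is true for all closed sets in the class `C` if it is true for the smooth hypersurfaces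
`∑ t, Q_t(y) (y_0 + t y_1 + ⋯ + t^N y_N)^D = 0` in `P^N`, with `N (2 N + 1)` forms `Q_t` of the same degree `e`
and `D = δ e`, which are hyperbolic outside of a closed set in the class. -/
def Reduction (N : ℕ) (δ : ℕ → ℕ) (C W : ∀ n : ℕ, Set (MvPolynomial (Fin (n + 1)) ℂ) → Prop) :
    Prop :=
  (∀ (e : ℕ) (Q : Fin (N * (2 * N + 1)) → MvPolynomial (Fin (N + 1)) ℂ),
      (∀ t, (Q t).IsHomogeneous e) →
      (∃ S' : Set (MvPolynomial (Fin (N + 1)) ℂ), C N S' ∧
        HyperbolicOutside (powerForm (δ e) Q) S') →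
      W N {powerForm (δ e) Q}) →
    ∀ (n : ℕ) (S : Set (MvPolynomial (Fin (n + 1)) ℂ)), C n S → W n S

section proof

variable {n N : ℕ} {S : Set (MvPolynomial (Fin (n + 1)) ℂ)}
  {S' : Set (MvPolynomial (Fin (N + 1)) ℂ)} {A : Fin (N + 1) → MvPolynomial (Fin (n + 1)) ℂ}
  {B : MvPolynomial (Fin (N + 1)) ℂ}

theorem compare_of (hS : ∀ F ∈ S, IsForm F) (hS' : ∀ F ∈ S', IsForm F) (hE : Emb S S' A)
    (hB : IsForm B) (hO : HyperbolicOutside B S') : Compare S A B := by
  have hy := hy_of hB hO
  have hW := hE.weak hS hS'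
  have hdown : ∀ G : MvPolynomial (Fin (N + 1)) ℂ, FiniteOffFg {B} G →
      FiniteOffFg S (bind₁ A G) := fun G hG =>
    Pool.Agent.H911.KE.fge_down hW hO.2.1 corr_bind fun G' hG' => by
      rw [Set.mem_singleton_iff] at hG'
      rw [hG']
      exact hG
  refine ⟨?_, noTori_iff hS hS' hE hy, fun h => ?_, fun G _ => ⟨?_, hdown G⟩, fun h G hG => ?_⟩
  · intro g L _ _ F hF hF0 hFB hFL hne
    exact tori_on hS hS' hE hy hF hF0 hFB hFL hne
  · have h1 := hdown 1 h
    rwa [map_one] at h1
  · rw [← tori_corr hS hS' hE hy corr_bind]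
    exact ⟨fun h5 G' hG' => by rw [Set.mem_singleton_iff] at hG'; rw [hG']; exact h5,
      fun h5 => h5 G rfl⟩
  · obtain ⟨T', hT', hC⟩ := exists_corr hW hG
    constructor
    · intro h1
      have h2 := (tori_corr hS hS' hE hy hC).2 h1
      exact Pool.Agent.H911.KE.fge_down hW hO.2.1 hC fun G' hG' =>
        (h G' (hT' G' hG')).1 (h2 G' hG')
    · intro h1
      refine (tori_corr hS hS' hE hy hC).1 fun G' hG' => (h G' (hT' G' hG')).2 ?_
      refine Pool.Agent.H911.KE.fge_up hS hE (fun F hF => (h F (hS' F hF)).1 ?_) hC h1 G' hG'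
      rw [Pool.Agent.H911.KE.uncm_tori hB hS' (Set.mem_singleton B) hO F]
      intro g L _ _ f _ _ hf _
      exact Or.inr fun z => hf z F (Or.inr hF)

end proof

/-- **Groupless implies arithmetically hyperbolic (over `ℂ`): projective manifolds of dimension at most `m`
follow from smooth hypersurfaces of dimension `2 m` which are hyperbolic outside of a submanifold of dimension
at most `m`.** -/
theorem result (N : ℕ) (hN : 1 ≤ N) : ∃ D₁ : ℕ → ℕ,
    -- (0) models of manifolds
    (∀ (n : ℕ) (S : Set (MvPolynomial (Fin (n + 1)) ℂ)) (w : ℕ), 2 * w + 1 ≤ N → Manifold S w →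
      ∃ (e : ℕ) (S' : Set (MvPolynomial (Fin (N + 1)) ℂ))
        (A : Fin (N + 1) → MvPolynomial (Fin (n + 1)) ℂ), 1 ≤ e ∧ Manifold S' w ∧ Emb S S' A ∧
        (∀ D, D₁ e ≤ D → ∃ Q : Fin (N * (2 * N + 1)) → MvPolynomial (Fin (N + 1)) ℂ,
          (∀ t, (Q t).IsHomogeneous e) ∧ HyperbolicOutside (powerForm D Q) S') ∧
        ∀ B : MvPolynomial (Fin (N + 1)) ℂ, IsForm B → HyperbolicOutside B S' → Compare S A B) ∧
    -- models of closed sets with singularities
    (∀ (n : ℕ) (S : Set (MvPolynomial (Fin (n + 1)) ℂ)), (∃ d, Sm S d ∧ d + 1 ≤ N) →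
      ∃ (e : ℕ) (S' : Set (MvPolynomial (Fin (N + 1)) ℂ))
        (A : Fin (N + 1) → MvPolynomial (Fin (n + 1)) ℂ), 1 ≤ e ∧ (∃ d, Sm S' d ∧ d + 1 ≤ N) ∧
        Emb S S' A ∧
        (∀ D, D₁ e ≤ D → ∃ Q : Fin (N * (2 * N + 1)) → MvPolynomial (Fin (N + 1)) ℂ,
          (∀ t, (Q t).IsHomogeneous e) ∧ HyperbolicOutside (powerForm D Q) S') ∧
        ∀ B : MvPolynomial (Fin (N + 1)) ℂ, IsForm B → HyperbolicOutside B S' → Compare S A B) ∧
    -- (0') closed subsets `V(R)` of the hypersurfaces
    (∀ (B : MvPolynomial (Fin (N + 1)) ℂ) (S' R : Set (MvPolynomial (Fin (N + 1)) ℂ)), IsForm B →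
      (∀ F ∈ S', IsForm F) → HyperbolicOutside B S' → B ∈ R →
      (Groupless R ↔ Groupless (R ∪ S')) ∧ (∀ G, OnTori R G ↔ OnTori (R ∪ S') G) ∧
      ((∀ x : Fin (N + 1) → ℂ, x ≠ 0 → (∀ F ∈ R, eval x F = 0) → ∃ F ∈ S', eval x F ≠ 0) →
        Groupless R)) ∧
    -- (1) the reduction
    ∀ δ : ℕ → ℕ, (∀ e, D₁ e ≤ δ e) →
      (∀ m, 2 * m + 1 ≤ N →
        Reduction N δ (Manifolds m) (fun _ S => Groupless S → ArithmeticallyHyperbolic S) ∧
        Reduction N δ (Manifolds m) (fun _ S => RelativeQ1 S)) ∧
      Reduction N δ (fun _ S => ∃ d, Sm S d ∧ d + 1 ≤ N)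
        (fun _ S => Groupless S → ArithmeticallyHyperbolic S) ∧
      Reduction N δ (fun _ S => ∃ d, Sm S d ∧ d + 1 ≤ N) (fun _ S => RelativeQ1 S) := by
  obtain ⟨D₁, H1, H2⟩ := Pool.Agent.H911.KE.exists_both N hN
  have K1 : ∀ (n : ℕ) (S : Set (MvPolynomial (Fin (n + 1)) ℂ)) (w : ℕ), 2 * w + 1 ≤ N →
      Manifold S w → ∃ (e : ℕ) (S' : Set (MvPolynomial (Fin (N + 1)) ℂ))
        (A : Fin (N + 1) → MvPolynomial (Fin (n + 1)) ℂ), 1 ≤ e ∧ Manifold S' w ∧ Emb S S' A ∧
        (∀ D, D₁ e ≤ D → ∃ Q : Fin (N * (2 * N + 1)) → MvPolynomial (Fin (N + 1)) ℂ,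
          (∀ t, (Q t).IsHomogeneous e) ∧ HyperbolicOutside (powerForm D Q) S') ∧
        ∀ B : MvPolynomial (Fin (N + 1)) ℂ, IsForm B → HyperbolicOutside B S' → Compare S A B := by
    intro n S w hw hS
    obtain ⟨e, S', A, he, hS', hEm, h⟩ := H2 n S w hw hS
    refine ⟨e, S', A, he, hS', hEm, fun D hD => ?_, fun B hB hO => ?_⟩
    · obtain ⟨Q, hQ, hO, -⟩ := h D hD
      exact ⟨Q, hQ, hO⟩
    · exact compare_of hS.1 hS'.1 hEm hB hO
  have K2 : ∀ (n : ℕ) (S : Set (MvPolynomial (Fin (n + 1)) ℂ)), (∃ d, Sm S d ∧ d + 1 ≤ N) →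
      ∃ (e : ℕ) (S' : Set (MvPolynomial (Fin (N + 1)) ℂ))
        (A : Fin (N + 1) → MvPolynomial (Fin (n + 1)) ℂ), 1 ≤ e ∧ (∃ d, Sm S' d ∧ d + 1 ≤ N) ∧
        Emb S S' A ∧
        (∀ D, D₁ e ≤ D → ∃ Q : Fin (N * (2 * N + 1)) → MvPolynomial (Fin (N + 1)) ℂ,
          (∀ t, (Q t).IsHomogeneous e) ∧ HyperbolicOutside (powerForm D Q) S') ∧
        ∀ B : MvPolynomial (Fin (N + 1)) ℂ, IsForm B → HyperbolicOutside B S' → Compare S A B := by
    intro n S hS
    obtain ⟨e, S', A, he, -, -, hEm, h⟩ := H1 n S (Or.inl hS)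
    obtain ⟨hEm, hS'⟩ := hEm hS
    refine ⟨e, S', A, he, hS', hEm, fun D hD => ?_, fun B hB hO => ?_⟩
    · obtain ⟨Q, hQ, hO, -⟩ := h D hD
      exact ⟨Q, hQ, hO⟩
    · obtain ⟨d, hd, -⟩ := hS
      obtain ⟨d', hd', -⟩ := hS'
      exact compare_of hd.forms hd'.forms hEm hB hO
  refine ⟨D₁, K1, K2, ?_, fun δ hδ => ⟨fun m hm => ⟨?_, ?_⟩, ?_, ?_⟩⟩
  · intro B S' R hB hS' hO hR
    have h1 := Pool.Agent.H911.KE.uncm_noTori hB hS' hR hO
    refine ⟨h1, fun G => Pool.Agent.H911.KE.uncm_tori hB hS' hR hO G, fun h3 => h1.2 ?_⟩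
    intro g L _ _ F _ hF0 hF _ z
    exact absurd (Pool.Agent.H911.KE.empty_zero h3 (F z) fun p hp => hF z p hp) (hF0 z)
  · rintro hh n S ⟨w, hw, hS⟩
    obtain ⟨e, S', A, he, hS', hEm, hQ, hc⟩ := K1 n S w (by omega) hS
    obtain ⟨Q, hQ, hO⟩ := hQ (δ e) (hδ e)
    obtain ⟨-, h1, h2, -, -⟩ := hc _ (power_form hQ) hO
    exact fun h3 => h2 (hh e Q hQ ⟨S', ⟨w, hw, hS'⟩, hO⟩ (h1.2 h3))
  · rintro hh n S ⟨w, hw, hS⟩
    obtain ⟨e, S', A, he, hS', hEm, hQ, hc⟩ := K1 n S w (by omega) hS
    obtain ⟨Q, hQ, hO⟩ := hQ (δ e) (hδ e)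
    obtain ⟨-, -, -, -, h1⟩ := hc _ (power_form hQ) hO
    exact h1 (hh e Q hQ ⟨S', ⟨w, hw, hS'⟩, hO⟩)
  · rintro hh n S hS
    obtain ⟨e, S', A, he, hS', hEm, hQ, hc⟩ := K2 n S hS
    obtain ⟨Q, hQ, hO⟩ := hQ (δ e) (hδ e)
    obtain ⟨-, h1, h2, -, -⟩ := hc _ (power_form hQ) hO
    exact fun h3 => h2 (hh e Q hQ ⟨S', hS', hO⟩ (h1.2 h3))
  · rintro hh n S hS
    obtain ⟨e, S', A, he, hS', hEm, hQ, hc⟩ := K2 n S hS
    obtain ⟨Q, hQ, hO⟩ := hQ (δ e) (hδ e)
    obtain ⟨-, -, -, -, h1⟩ := hc _ (power_form hQ) hO
    exact h1 (hh e Q hQ ⟨S', hS', hO⟩)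

end Pool.Agent.Results.MP_c7af3c_ag.TwiceTheDimension
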